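import Mathlib
import Pool.Agent.H29.Walk

namespace Pool.Agent.Results.MP_b50549_al.Drift

open Filter Topology

/-- Convolution of finitely supported measures on a group. -/
noncomputable def conv {G : Type} [Group G] (a b : G →₀ ℝ) : G →₀ ℝ :=
  a.sum fun g x => b.sum fun h y => Finsupp.single (g * h) (x * y)

/-- Convolution powers. -/
noncomputable def cpow {G : Type} [Group G] (μ : G →₀ ℝ) : ℕ → G →₀ ℝ
  | 0 => Finsupp.single 1 1
  | n + 1 => conv (cpow μ n) μ

/-- Step distributions: finitely supported probability measures with generating support and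
positive mass at the identity. -/
def IsStep {G : Type} [Group G] (μ : G →₀ ℝ) : Prop :=
  (∀ g, 0 ≤ μ g) ∧ (μ.sum fun _ x => x) = 1 ∧ Subgroup.closure (μ.support : Set G) = ⊤ ∧ 0 < μ 1

open Classical in
/-- The probability of the law `w = 1` along the random walk with step distribution `μ`. -/
noncomputable def Pr {G : Type} [Group G] {d : ℕ} (μ : G →₀ ℝ) (w : FreeGroup (Fin d)) : ℝ :=
  limsup (fun n : ℕ => ∑ g ∈ Fintype.piFinset fun _ : Fin d => (cpow μ n).support,
    if FreeGroup.lift g w = 1 then ∏ i, cpow μ n (g i) else 0) atTop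

open Pool.Agent.H29.Walk hiding conv cpow

lemma cpow_eq {G : Type} [Group G] (μ : G →₀ ℝ) (n : ℕ) :
    cpow μ n = Pool.Agent.H29.Walk.cpow μ n := by
  induction n with
  | zero => rfl
  | succ n ih => rw [cpow, ih]; rfl

abbrev F := Equiv.Perm (Fin 3)

/-- the unrestricted wreath product -/
@[ext] structure W where
  f : ℤ → F
  p : ℤ

instance : Mul W := ⟨fun a b => ⟨fun s => a.f s * b.f (s - a.p), a.p + b.p⟩⟩
instance : One W := ⟨⟨1, 0⟩⟩
instance : Inv W := ⟨fun a => ⟨fun s => (a.f (s + a.p))⁻¹, -a.p⟩⟩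
@[simp] lemma mul_f (a b : W) (s : ℤ) : (a * b).f s = a.f s * b.f (s - a.p) := rfl
@[simp] lemma mul_p (a b : W) : (a * b).p = a.p + b.p := rfl
@[simp] lemma one_f (s : ℤ) : (1 : W).f s = 1 := rfl
@[simp] lemma one_p : (1 : W).p = 0 := rfl
@[simp] lemma inv_f (a : W) (s : ℤ) : a⁻¹.f s = (a.f (s + a.p))⁻¹ := rfl
@[simp] lemma inv_p (a : W) : a⁻¹.p = -a.p := rfl

instance : Group W := Group.ofLeftAxioms
  (fun a b c => W.ext (funext fun s => by simp [mul_assoc, sub_sub]) (by simp [add_assoc]))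
  (fun a => W.ext (funext fun s => by simp) (by simp))
  (fun a => W.ext (funext fun s => by simp) (by simp))

def lamp (i : ℤ) (a : F) : W := ⟨Pi.mulSingle i a, 0⟩
def T (e : ℤ) : W := ⟨1, e⟩
@[simp] lemma lamp_f (i : ℤ) (a : F) (s : ℤ) : (lamp i a).f s = if s = i then a else 1 :=
  Pi.mulSingle_apply _ _ _
@[simp] lemma lamp_p (i : ℤ) (a : F) : (lamp i a).p = 0 := rfl
@[simp] lemma T_f (e s : ℤ) : (T e).f s = 1 := rfl
@[simp] lemma T_p (e : ℤ) : (T e).p = e := rfl

lemma lamp_mul (a b : F) : lamp 0 a * lamp 0 b = lamp 0 (a * b) := by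
  ext1
  · funext s; simp; split_ifs <;> simp
  · simp
lemma lamp_inv (a : F) : (lamp 0 a)⁻¹ = lamp 0 a⁻¹ := by
  ext1
  · funext s; simp; split_ifs <;> simp
  · simp
lemma T_inv (e : ℤ) : (T e)⁻¹ = T (-e) := by ext1 <;> rfl
lemma lamp_one : lamp 0 1 = 1 := by
  ext1
  · funext s; simp
  · rfl

/-- commutator -/
def c {G : Type} [Group G] (x y : G) : G := x * y * x⁻¹ * y⁻¹

lemma c_f (x y : W) (s : ℤ) :
    (c x y).f s = x.f s * y.f (s - x.p) * (x.f (s - y.p))⁻¹ * (y.f s)⁻¹ := by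
  simp only [c, mul_f, mul_p, inv_f, inv_p]
  congr 3 <;> ring
lemma c_p (x y : W) : (c x y).p = 0 := by simp [c]

lemma law_iff (u v : W) (hu : u.p = 0) (hv : v.p = 0) :
    c u v = 1 ↔ ∀ s, u.f s * v.f s = v.f s * u.f s := by
  rw [c, mul_inv_eq_one, mul_inv_eq_iff_eq_mul, W.ext_iff, funext_iff]
  simp [hu, hv]

open Classical in
/-- indicator -/
noncomputable def ind (p : Prop) : ℝ := if p then 1 else 0

lemma ind_01 (p : Prop) : 0 ≤ ind p ∧ ind p ≤ 1 := by unfold ind; split_ifs <;> norm_num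

/-- fourfold expectation -/
noncomputable def Φ {G ι : Type} [Group G] [Fintype ι] (σ : ι → G) (n : ℕ)
    (f : G → G → G → G → ℝ) : ℝ :=
  (R σ)^[n] (fun x => (R σ)^[n] (fun y => (R σ)^[n] (fun z => (R σ)^[n] (fun t => f x y z t) 1) 1)
    1) 1

section
variable {G ι : Type} [Group G] [Fintype ι] (σ : ι → G) (n : ℕ)

lemma Φ_mono {f f' : G → G → G → G → ℝ} (h : ∀ x y z t, f x y z t ≤ f' x y z t) :
    Φ σ n f ≤ Φ σ n f' :=
  R_mono _ _ (fun x => R_mono _ _ (fun y => R_mono _ _ (fun z => R_mono _ _ (h x y z) _) _) _) _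

lemma Φ_lin {κ : Type} (s : Finset κ) (a : κ → ℝ) (f : κ → G → G → G → G → ℝ) :
    Φ σ n (fun x y z t => ∑ k ∈ s, a k * f k x y z t) = ∑ k ∈ s, a k * Φ σ n (f k) := by
  simp only [Φ, R_lin]

lemma R_01 [Nonempty ι] {f : G → ℝ} (h : ∀ x, 0 ≤ f x ∧ f x ≤ 1) (g : G) :
    0 ≤ (R σ)^[n] f g ∧ (R σ)^[n] f g ≤ 1 :=
  ⟨(R_const σ n 0 g).symm.trans_le (R_mono _ _ (fun x => (h x).1) _),
    (R_mono _ _ (fun x => (h x).2) _).trans_eq (R_const σ n 1 g)⟩

lemma R_reindex (e : ι ≃ ι) : R (fun i => σ (e i)) = R σ := by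
  funext f g
  simp only [R]
  rw [Equiv.sum_comp e fun i => f (g * σ i)]

open Classical in
lemma Pr_eq (w : FreeGroup (Fin 4)) :
    (∑ g ∈ Fintype.piFinset fun _ : Fin 4 => (cpow (unif σ) n).support,
      if FreeGroup.lift g w = 1 then ∏ i, cpow (unif σ) n (g i) else 0) =
    Φ σ n fun x y z t => ind (FreeGroup.lift ![x, y, z, t] w = 1) := by
  simp only [ind, Φ, ← lc_cpow, ← cpow_eq, Finsupp.linearCombination_apply, Finsupp.sum, smul_eq_mul,
    Finset.mul_sum, ← Finset.sum_product']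
  refine Finset.sum_nbij' (fun g => (g 0, g 1, g 2, g 3)) (fun q => ![q.1, q.2.1, q.2.2.1, q.2.2.2])
    (fun g hg => ?_) (fun q hq => ?_) (fun g _ => ?_) (fun q _ => rfl) (fun g _ => ?_)
  · simp only [Fintype.mem_piFinset] at hg
    simp only [Finset.mem_product]
    exact ⟨hg 0, hg 1, hg 2, hg 3⟩
  · simp only [Finset.mem_product] at hq
    simp only [Fintype.mem_piFinset, Fin.forall_fin_succ]
    exact ⟨hq.1, hq.2.1, hq.2.2.1, hq.2.2.2, fun i => i.elim0⟩
  · funext i; fin_cases i <;> rfl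
  · have : ![g 0, g 1, g 2, g 3] = g := by funext i; fin_cases i <;> rfl
    simp only [this, Fin.prod_univ_four]
    split_ifs <;> ring

open Classical in
lemma unif_supp [Nonempty ι] (g : G) : g ∈ (unif σ).support ↔ ∃ i, σ i = g := by
  rw [Finsupp.mem_support_iff, unif_apply]
  simp [Finset.filter_eq_empty_iff]

open Classical in
lemma isStep [Nonempty ι] (h1 : ∃ i, σ i = 1) (h2 : Subgroup.closure (Set.range σ) = ⊤) :
    IsStep (unif σ) := by
  have h0 : ∀ g, 0 ≤ unif σ g := fun g => by rw [unif_apply]; positivity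
  refine ⟨h0, ?_, ?_, lt_of_le_of_ne (h0 1) (Finsupp.mem_support_iff.1 ((unif_supp σ 1).2 h1)).symm⟩
  · have := lc_unif σ fun _ => 1
    simpa [Finsupp.linearCombination_apply] using this
  · rw [← h2]; congr 1; ext g; exact unif_supp σ g

end

/-- increments of the symmetric walk -/
def ε : Fin 4 → ℤ := ![0, 0, 1, -1]

def σs (i : F × Fin 4 × F) : W := lamp 0 i.1 * T (ε i.2.1) * lamp 0 i.2.2

def σd : Option (F × Fin 3) → W
  | none => 1
  | some (a, k) => if k = 2 then lamp 0 a * T (-1) else T 1 * lamp 0 a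

def es : F × Fin 4 × F ≃ F × Fin 4 × F :=
  Function.Involutive.toPerm (fun i => (i.2.2⁻¹, Equiv.swap 2 3 i.2.1, i.1⁻¹)) fun i => by simp

lemma σs_inv (i : F × Fin 4 × F) : (σs i)⁻¹ = σs (es i) := by
  have : ∀ k, ε (Equiv.swap 2 3 k) = -ε k := by decide
  simp only [σs, mul_inv_rev, lamp_inv, T_inv, mul_assoc]
  rw [← this]; rfl

lemma Rs_pos (φ : ℤ → ℝ) (j : ℤ) :
    (∑ i, φ (j + (σs i).p)) / Fintype.card (F × Fin 4 × F) = Q φ j := by
  simp [σs, Fintype.sum_prod_type, Fin.sum_univ_four, ε, Q, Fintype.card_perm, Nat.factorial,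
    sub_eq_add_neg]
  ring

lemma Rs_Q (φ : ℤ → ℝ) (n : ℕ) (g : W) : (R σs)^[n] (fun x => φ x.p) g = Q^[n] φ g.p := by
  induction n generalizing g with
  | zero => rfl
  | succ n ih => simp only [Function.iterate_succ_apply', R, ih, mul_p, Rs_pos]

lemma Rs_lamp (ψ : W → ℝ) (g : W) (a : F) : R σs ψ (g * lamp 0 a) = R σs ψ g := by
  rw [← R_reindex σs (Equiv.prodCongr (Equiv.mulLeft a⁻¹) (Equiv.refl _))]
  conv_rhs => rw [R_reindex]
  simp only [R, σs, Equiv.prodCongr_apply, Prod.map_fst, Prod.map_snd, Equiv.coe_mulLeft,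
    Equiv.coe_refl, id, mul_assoc]
  simp only [← mul_assoc (lamp 0 a), lamp_mul, mul_inv_cancel_left]

lemma lamp_err {f : W → ℝ} (h : ∀ x, 0 ≤ f x ∧ f x ≤ 1) (s : ℤ) (a : F) (n : ℕ) (g : W) :
    (R σs)^[n] f g - (R σs)^[n] f (lamp s a * g) ≤ hit (1 / 2) n (g.p - s) := by
  induction n generalizing g with
  | zero => have := h g; have := h (lamp s a * g); simp [hit]; linarith
  | succ n ih =>
    rw [Function.iterate_succ_apply', hit]
    split_ifs with h1
    · have : lamp s a * g = g * lamp 0 ((g.f s)⁻¹ * a * g.f s) := by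
        ext1
        · funext r
          have : r - g.p = 0 ↔ r = s := by omega
          simp only [mul_f, lamp_f, lamp_p, sub_zero, this]
          split_ifs with h2
          · subst h2; group
          · simp
        · simp
      rw [this, Rs_lamp, sub_self]
    · have h2 := Rs_pos (hit (1 / 2) n) (g.p - s)
      simp only [Q] at h2
      have h3 := Finset.sum_le_sum fun i (_ : i ∈ Finset.univ) => ih (g * σs i)
      simp only [mul_p, ← mul_assoc, Finset.sum_sub_distrib, add_sub_right_comm] at h3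
      have h4 := div_le_div_of_nonneg_right h3
        (Nat.cast_nonneg (α := ℝ) (Fintype.card (F × Fin 4 × F)))
      rw [h2, sub_div] at h4
      simp only [R]; linarith

lemma Φ_err {f : W → W → W → W → ℝ} (h : ∀ x y z t, 0 ≤ f x y z t ∧ f x y z t ≤ 1) (s : ℤ)
    (a b : F) (n : ℕ) : Φ σs n f ≤ Φ σs n (fun x y z t => f (lamp s a * x) y (lamp s b * z) t) +
      2 * hit (1 / 2) n (0 - s) := by
  have e : ∀ (ψ : W → ℝ), (∀ x, 0 ≤ ψ x ∧ ψ x ≤ 1) → ∀ a, (R σs)^[n] ψ 1 ≤
      (R σs)^[n] (fun x => ψ (lamp s a * x)) 1 + hit (1 / 2) n (0 - s) := fun ψ hψ a => by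
    have := lamp_err hψ s a n 1
    rw [R_left]; rw [one_p] at this; linarith
  have h1 : Φ σs n f ≤ Φ σs n (fun x y z t => f x y (lamp s b * z) t) + hit (1 / 2) n (0 - s) := by
    refine (R_mono _ _ (fun x => R_mono _ _ (fun y =>
      e _ (fun z => R_01 _ _ (h x y z) _) b) _) _).trans_eq ?_
    simp only [R_add, R_const, Φ]
  have h2 := e _ (fun x => R_01 σs n (fun y => R_01 σs n (fun z => R_01 σs n
    (h x y (lamp s b * z)) 1) 1) 1) a
  simp only [Φ] at h1 ⊢
  linarith

/-- partial commutation events -/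
def A (K k : ℕ) (x y z t : W) : Prop := K < |y.p| ∧ K < |t.p| ∧
  ∀ s : ℕ, s < k → (c x y).f s * (c z t).f s = (c z t).f s * (c x y).f s

lemma pairs (u v : F) : ∑ q : F × F, (1 / 36 : ℝ) *
    (if q.1 * u * (q.2 * v) = q.2 * v * (q.1 * u) then 1 else 0) = 1 / 2 := by
  refine (Equiv.sum_comp (Equiv.prodCongr (Equiv.mulRight u) (Equiv.mulRight v))
    fun q : F × F => (1 / 36 : ℝ) * (if q.1 * q.2 = q.2 * q.1 then 1 else 0)).trans ?_
  rw [← Finset.mul_sum, Finset.sum_boole]
  have : (Finset.univ.filter fun q : F × F => q.1 * q.2 = q.2 * q.1).card = 18 := by decide +kernel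
  rw [this]; norm_num

lemma c_lamp {K k : ℕ} (hk : k ≤ K) (a : F) (x y : W) (hy : K < |y.p|) (s : ℕ) (hs : s ≤ K) :
    (c (lamp k a * x) y).f s = (if s = k then a else 1) * (c x y).f s := by
  have : ¬ (s : ℤ) - y.p = k := by
    intro h; rcases lt_abs.1 hy with h | h <;> omega
  simp [c_f, this, mul_assoc]

open Classical in
lemma A_step {K k : ℕ} (hk : k ≤ K) (x y z t : W) : ∑ q : F × F, (1 / 36 : ℝ) *
    (if A K (k + 1) (lamp k q.1 * x) y (lamp k q.2 * z) t then 1 else 0) ≤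
    1 / 2 * (if A K k x y z t then 1 else 0) := by
  by_cases h : A K k x y z t
  · rw [if_pos h, mul_one, ← pairs ((c x y).f k) ((c z t).f k)]
    refine Finset.sum_le_sum fun q _ => mul_le_mul_of_nonneg_left ?_ (by norm_num)
    split_ifs with h1 h2
    · rfl
    · have := h1.2.2 k (by omega)
      rw [c_lamp hk _ _ _ h.1 k hk, c_lamp hk _ _ _ h.2.1 k hk] at this
      simp only [if_true] at this
      exact absurd this h2
    all_goals norm_num
  · rw [if_neg h, mul_zero]
    refine le_of_eq (Finset.sum_eq_zero fun q _ => ?_)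
    rw [if_neg, mul_zero]
    intro h1
    refine h ⟨h1.1, h1.2.1, fun s hs => ?_⟩
    have := h1.2.2 s (by omega)
    rw [c_lamp hk _ _ _ h1.1 s (by omega), c_lamp hk _ _ _ h1.2.1 s (by omega)] at this
    simpa [hs.ne] using this

open Classical in
lemma sym_zero : Tendsto (fun n => Φ σs n fun x y z t =>
    ind (c (c x y) (c z t) = 1)) atTop (𝓝 0) := by
  unfold ind
  have h1 : ∀ K k, k ≤ K → ∃ e : ℕ → ℝ, Tendsto e atTop (𝓝 0) ∧ ∀ n,
      Φ σs n (fun x y z t => if A K k x y z t then 1 else 0) ≤ (1 / 2) ^ k + e n := by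
    intro K k
    induction k with
    | zero =>
      refine fun _ => ⟨0, tendsto_const_nhds, fun n => ?_⟩
      refine (Φ_mono _ _ (f' := fun _ _ _ _ => 1) fun x y z t => by split_ifs <;> norm_num).trans ?_
      simp [Φ, R_const]
    | succ k ih =>
      intro hk
      obtain ⟨e, h1, h2⟩ := ih (by omega)
      refine ⟨fun n => 1 / 2 * e n + 2 * hit (1 / 2) n (0 - k), by
        have := (h1.const_mul (1 / 2)).add
          ((hit_tendsto (α := 1 / 2) (by norm_num) (by norm_num) (0 - k)).const_mul 2)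
        rwa [mul_zero, mul_zero, add_zero] at this, fun n => ?_⟩
      have h3 := Finset.sum_le_sum fun (q : F × F) (_ : q ∈ Finset.univ) =>
        mul_le_mul_of_nonneg_left (Φ_err (f := fun x y z t => if A K (k + 1) x y z t then 1 else 0)
          (fun x y z t => by split_ifs <;> norm_num) k q.1 q.2 n) (show (0 : ℝ) ≤ 1 / 36 by norm_num)
      simp only [mul_add, Finset.sum_add_distrib, ← Φ_lin, Finset.sum_const, Finset.card_univ,
        Fintype.card_prod, Fintype.card_perm, Fintype.card_fin, nsmul_eq_mul] at h3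
      have h4 := Φ_mono σs n (A_step (K := K) (k := k) (by omega))
      have h5 : Φ σs n (fun x y z t => 1 / 2 * (if A K k x y z t then 1 else 0)) =
          1 / 2 * Φ σs n (fun x y z t => if A K k x y z t then 1 else 0) := by
        simp only [Φ, Pool.Agent.H29.Walk.R_mul]
      have h6 := h2 n
      norm_num [Nat.factorial] at h3 h4 h5 h6 ⊢
      rw [pow_succ]; linarith
  rw [Metric.tendsto_atTop]
  intro δ hδ
  obtain ⟨K, hK⟩ := exists_pow_lt_of_lt_one (half_pos hδ) (show (1 / 2 : ℝ) < 1 by norm_num)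
  obtain ⟨e, h2, h3⟩ := h1 K K le_rfl
  have h4 := (h2.add (anti K)).add (anti K)
  rw [add_zero, add_zero] at h4
  obtain ⟨N, hN⟩ := eventually_atTop.1 (h4.eventually (gt_mem_nhds (half_pos hδ)))
  refine ⟨N, fun n hn => ?_⟩
  have h5 := Φ_mono σs n (f := fun x y z t => if c (c x y) (c z t) = 1 then 1 else 0)
    (f' := fun x y z t => (if A K K x y z t then 1 else 0) + (if |y.p| ≤ K then 1 else 0) +
      (if |t.p| ≤ K then 1 else 0)) (fun x y z t => by
      by_cases a1 : c (c x y) (c z t) = 1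
      · by_cases a2 : |y.p| ≤ K
        · simp only [a1, a2, if_true]; split_ifs <;> norm_num
        by_cases a3 : |t.p| ≤ K
        · simp only [a1, a3, if_true]; split_ifs <;> norm_num
        have : A K K x y z t := ⟨not_le.1 a2, not_le.1 a3,
          fun s _ => (law_iff _ _ (c_p _ _) (c_p _ _)).1 a1 s⟩
        simp [a1, a2, a3, this]
      · rw [if_neg a1]; positivity)
  have h6 := Rs_Q (fun j => if |j| ≤ K then 1 else 0) n 1
  have h7 := Φ_mono σs n (f := fun _ _ _ _ => 0)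
    (f' := fun x y z t => if c (c x y) (c z t) = 1 then 1 else 0) (fun x y z t => by positivity)
  have h8 := h3 n
  have h9 := hN n hn
  simp only [Φ, R_add, R_const, h6, one_p] at h5 h7 h8 ⊢
  rw [Real.dist_eq, sub_zero, abs_of_nonneg h7]
  linarith

open Classical in
lemma stay (σ : Option (F × Fin 3) → W) (P : W → Prop) (l : W → ℤ) (h0 : σ none = 1)
    (h1 : ∀ g, P g → ∀ a, ∀ k, k ≠ 2 → P (g * σ (some (a, k))) ∧ l (g * σ (some (a, k))) = l g + 1)
    (h2 : ∀ g, P g → ∀ a, l g = 0 ∨ P (g * σ (some (a, 2))) ∧ l (g * σ (some (a, 2))) = l g - 1)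
    (n : ℕ) (g : W) (hg : P g) :
    1 - (1 / 2 : ℝ) ^ (l g + 1) ≤ (R σ)^[n] (fun x => if P x then 1 else 0) g := by
  induction n generalizing g with
  | zero => simp [hg]; positivity
  | succ n ih =>
    have a1 : ∀ a k, k ≠ 2 → 1 - (1 / 2 : ℝ) ^ (l g + 1) / 2 ≤
        (R σ)^[n] (fun x => if P x then 1 else 0) (g * σ (some (a, k))) := fun a k hk => by
      have := ih _ (h1 g hg a k hk).1
      rw [(h1 g hg a k hk).2, zpow_add_one₀ (by norm_num)] at this
      linarith
    have a2 : ∀ a, 1 - (1 / 2 : ℝ) ^ (l g + 1) * 2 ≤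
        (R σ)^[n] (fun x => if P x then 1 else 0) (g * σ (some (a, 2))) := fun a => by
      rcases h2 g hg a with h | h
      · rw [h]; norm_num
        exact (R_01 σ n (fun x => by split_ifs <;> norm_num) _).1
      · have := ih _ h.1
        rw [h.2, sub_add_cancel] at this
        rw [zpow_add_one₀ (by norm_num)]; linarith
    have a3 := Finset.sum_le_sum fun a (_ : a ∈ Finset.univ) =>
      add_le_add (add_le_add (a1 a 0 (by decide)) (a1 a 1 (by decide))) (a2 a)
    have a4 := ih g hg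
    rw [Function.iterate_succ_apply', R, Fintype.sum_option, Fintype.sum_prod_type, h0, mul_one]
    simp only [Fin.sum_univ_three]
    simp only [Finset.sum_const, Finset.card_univ, Fintype.card_option, Fintype.card_prod,
      Fintype.card_perm, Fintype.card_fin, nsmul_eq_mul] at a3 ⊢
    norm_num [Nat.factorial] at a3 a4 ⊢
    linarith

open Classical in
lemma drift_pos (n : ℕ) : 1 / 16 ≤ Φ σd n fun x y z t =>
    ind (c (c x y) (c z⁻¹ t⁻¹) = 1) := by
  unfold ind
  let P : W → Prop := fun g => (∀ s ≤ 0, g.f s = 1) ∧ 0 ≤ g.p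
  let P' : W → Prop := fun g => (∀ s, 1 ≤ s → g.f s = 1) ∧ g.p ≤ 0
  have h1 := stay σd P (fun g => g.p) rfl (fun g hg a k hk => by
      refine ⟨⟨fun s hs => ?_, ?_⟩, ?_⟩ <;> simp [σd, hk]
      · rw [hg.1 s hs, if_neg (by have := hg.2; omega)]
      · have := hg.2; omega)
    (fun g hg a => by
      rcases eq_or_lt_of_le hg.2 with h | h
      · exact Or.inl h.symm
      refine Or.inr ⟨⟨fun s hs => ?_, ?_⟩, ?_⟩ <;> simp [σd]
      · rw [hg.1 s hs, if_neg (by omega)]
      · omega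
      · omega) n 1 ⟨fun _ _ => rfl, le_rfl⟩
  have h2 := stay (fun i => (σd i)⁻¹) P' (fun g => -g.p) inv_one (fun g hg a k hk => by
      refine ⟨⟨fun s hs => ?_, ?_⟩, ?_⟩ <;> simp [σd, hk]
      · rw [hg.1 s hs, if_neg (by have := hg.2; omega)]; simp
      · have := hg.2; omega
      · omega)
    (fun g hg a => by
      rcases eq_or_lt_of_le hg.2 with h | h
      · exact Or.inl (by simp [h])
      refine Or.inr ⟨⟨fun s hs => ?_, ?_⟩, ?_⟩ <;> simp [σd]
      · rw [hg.1 s hs, if_neg (by omega)]; simp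
      · omega
      · omega) n 1 ⟨fun _ _ => rfl, le_rfl⟩
  rw [← R_inv] at h2
  have h3 := Φ_mono σd n (f := fun x y z t => (if P x then 1 else 0) * ((if P y then 1 else 0) *
      ((if P' z⁻¹ then 1 else 0) * (if P' t⁻¹ then 1 else 0))))
    (f' := fun x y z t => if c (c x y) (c z⁻¹ t⁻¹) = 1 then 1 else 0) (fun x y z t => by
      by_cases h : P x ∧ P y ∧ P' z⁻¹ ∧ P' t⁻¹
      · obtain ⟨a1, a2, a3, a4⟩ := h
        have : c (c x y) (c z⁻¹ t⁻¹) = 1 := (law_iff _ _ (c_p _ _) (c_p _ _)).2 fun s => by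
          rcases le_or_gt s 0 with h | h
          · rw [c_f x y, a1.1 s h, a2.1 s h, a1.1 _ (by have := a2.2; omega),
              a2.1 _ (by have := a1.2; omega)]; simp
          · rw [c_f z⁻¹ t⁻¹, a3.1 s h, a4.1 s h, a3.1 _ (by have := a4.2; omega),
              a4.1 _ (by have := a3.2; omega)]; simp
        simp [this, a1, a2, a3, a4]
      · have : (if P x then 1 else 0) * ((if P y then 1 else 0) *
            ((if P' z⁻¹ then 1 else 0) * (if P' t⁻¹ then 1 else 0))) = (0 : ℝ) := by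
          split_ifs <;> simp_all
        rw [this]; positivity)
  refine le_trans ?_ h3
  have e : ∀ (φ : W → ℝ) (r : ℝ), (R σd)^[n] (fun x => φ x * r) 1 = (R σd)^[n] φ 1 * r :=
    fun φ r => by simp only [mul_comm _ r, Pool.Agent.H29.Walk.R_mul]
  simp only [Φ, Pool.Agent.H29.Walk.R_mul, e]
  norm_num at h1 h2
  have key : ∀ a b : ℝ, 1 / 2 ≤ a → 1 / 2 ≤ b → 1 / 16 ≤ a * (a * (b * b)) := fun a b ha hb =>
    calc (1 / 16 : ℝ) = 1 / 2 * (1 / 2 * (1 / 2 * (1 / 2))) := by norm_num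
      _ ≤ _ := by gcongr
  exact key _ _ (by convert h1) (by convert h2)

/-- the restricted wreath product -/
def GG : Subgroup W := Subgroup.closure (insert (T 1) (Set.range (lamp 0)))

lemma T_mem : T 1 ∈ GG := Subgroup.subset_closure (Or.inl rfl)
lemma lamp_mem (a : F) : lamp 0 a ∈ GG := Subgroup.subset_closure (Or.inr ⟨a, rfl⟩)
lemma T_mem' : T (-1) ∈ GG := T_inv 1 ▸ GG.inv_mem T_mem

def τs (i : F × Fin 4 × F) : GG := ⟨σs i, GG.mul_mem (GG.mul_mem (lamp_mem _) (by
  obtain ⟨a, k, b⟩ := i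
  fin_cases k
  exacts [GG.one_mem, GG.one_mem, T_mem, T_mem'])) (lamp_mem _)⟩

def τd (i : Option (F × Fin 3)) : GG := ⟨σd i, by
  match i with
  | none => exact GG.one_mem
  | some (a, k) =>
    simp only [σd]
    split_ifs
    exacts [GG.mul_mem (lamp_mem _) T_mem', GG.mul_mem T_mem (lamp_mem _)]⟩

lemma gen {ι : Type} (τ : ι → GG) (h1 : ⟨_, T_mem⟩ ∈ Subgroup.closure (Set.range τ))
    (h2 : ∀ a, ⟨_, lamp_mem a⟩ ∈ Subgroup.closure (Set.range τ)) :
    Subgroup.closure (Set.range τ) = ⊤ := by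
  refine top_unique (le_trans Subgroup.closure_closure_coe_preimage.ge
    ((Subgroup.closure_le _).2 ?_))
  rintro ⟨g, hg⟩ (rfl | ⟨a, rfl⟩)
  exacts [h1, h2 a]

/-- the word -/
def ww : FreeGroup (Fin 4) := c (c (.of 0) (.of 1)) (c (FreeGroup.of 2)⁻¹ (FreeGroup.of 3)⁻¹)

lemma lift_ww (x y z t : GG) : FreeGroup.lift ![x, y, z, t] ww = 1 ↔
    c (c x.1 y.1) (c z.1⁻¹ t.1⁻¹) = 1 := by
  rw [Subtype.ext_iff]; simp [ww, c]

open Classical in
lemma Φ_hom {ι : Type} [Fintype ι] (τ : ι → GG) (n : ℕ) :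
    (Φ τ n fun x y z t => ind (FreeGroup.lift ![x, y, z, t] ww = 1)) =
    Φ (fun i => (τ i).1) n fun x y z t => ind (c (c x y) (c z⁻¹ t⁻¹) = 1) := by
  have h := R_hom GG.subtype τ n
  simp only [Subgroup.coe_subtype] at h
  simp only [Φ, lift_ww]
  rw [← OneMemClass.coe_one GG]
  simp only [← h]

theorem result : ∃ (G : Type) (_ : Group G) (_ : Group.FG G) (d : ℕ) (w : FreeGroup (Fin d))
    (μ ν : G →₀ ℝ), w ≠ 1 ∧ IsStep μ ∧ IsStep ν ∧ (∀ g, μ g⁻¹ = μ g) ∧
      (∀ g ∈ ν.support, g⁻¹ ∈ ν.support) ∧ Pr μ w = 0 ∧ 0 < Pr ν w := by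
  classical
  have g1 : Subgroup.closure (Set.range τs) = ⊤ := gen τs
    (Subgroup.subset_closure ⟨(1, 2, 1), Subtype.ext (by simp [τs, σs, lamp_one, ε])⟩)
    fun a => Subgroup.subset_closure ⟨(a, 0, 1), Subtype.ext (by
      simp only [τs, σs, lamp_one, mul_one]; exact mul_one _)⟩
  have g2 : Subgroup.closure (Set.range τd) = ⊤ := by
    have h1 : ⟨_, T_mem⟩ ∈ Subgroup.closure (Set.range τd) :=
      Subgroup.subset_closure ⟨some (1, 0), Subtype.ext (by simp [τd, σd, lamp_one])⟩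
    refine gen τd h1 fun a => ?_
    have := Subgroup.mul_mem _ (Subgroup.inv_mem _ h1)
      (Subgroup.subset_closure (k := Set.range τd) ⟨some (a, 0), rfl⟩)
    convert this
    simp [τd, σd]
  have z0 : Tendsto (fun n => Φ τs n fun x y z t =>
      ind (FreeGroup.lift ![x, y, z, t] ww = 1)) atTop (𝓝 0) := by
    refine sym_zero.congr fun n => ?_
    rw [Φ_hom]
    have e : ∀ φ : W → ℝ, (R σs)^[n] (fun g => φ g⁻¹) 1 = (R σs)^[n] φ 1 := fun φ => by
      rw [R_inv]; simp only [σs_inv, R_reindex]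
    show _ = Φ σs n _
    simp only [Φ]
    refine congrArg (fun φ => (R σs)^[n] φ 1) (funext fun x => ?_)
    refine congrArg (fun φ => (R σs)^[n] φ 1) (funext fun y => ?_)
    rw [← e]
    refine congrArg (fun φ => (R σs)^[n] φ 1) (funext fun z => ?_)
    rw [← e]
  refine ⟨GG, inferInstance, ⟨⟨(Set.finite_range τs).toFinset, by simpa using g1⟩⟩, 4, ww,
    unif τs, unif τd, fun h => ?_, isStep _ ⟨(1, 0, 1), Subtype.ext (by
      simp only [τs, σs, lamp_one, mul_one, one_mul]; rfl)⟩ g1, isStep _ ⟨none, rfl⟩ g2,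
    fun g => ?_, fun g hg => ?_, ?_, ?_⟩
  · have := z0.congr (f₂ := fun _ => 1) fun n => by simp [h, Φ, R_const, ind]
    exact one_ne_zero (tendsto_nhds_unique tendsto_const_nhds this)
  · rw [unif_apply, unif_apply, ← Equiv.sum_comp es]
    congr 2; funext i
    have : τs (es i) = (τs i)⁻¹ := Subtype.ext (σs_inv i).symm
    simp only [this, inv_inj]
  · rw [unif_supp] at hg ⊢
    obtain ⟨i, rfl⟩ := hg
    match i with
    | none => exact ⟨none, Subtype.ext inv_one.symm⟩
    | some (a, k) =>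
      by_cases hk : k = 2
      · exact ⟨some (a⁻¹, 0), Subtype.ext (by simp [τd, σd, hk, lamp_inv, T_inv])⟩
      · exact ⟨some (a⁻¹, 2), Subtype.ext (by simp [τd, σd, hk, lamp_inv, T_inv])⟩
  · simp only [Pr, Pr_eq]
    exact z0.limsup_eq
  · simp only [Pr, Pr_eq]
    refine lt_of_lt_of_le (show (0 : ℝ) < 1 / 16 by norm_num) (le_limsup_of_frequently_le
      (Frequently.of_forall fun n => by rw [Φ_hom]; exact drift_pos n)
      ⟨1, eventually_map.2 (Eventually.of_forall fun n => ?_)⟩)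
    refine (Φ_mono _ _ (f' := fun _ _ _ _ => 1) fun x y z t => (ind_01 _).2).trans ?_
    simp [Φ, R_const]

end Pool.Agent.Results.MP_b50549_al.Drift
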